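import Pool.Agent.Helper57.SJ.Stmts2
import Pool.Agent.Helper57.SI.SI

/-! Row GB of the sheet `Helper57/SJ/Stmts2.lean`. -/

set_option autoImplicit false

namespace Pool.Agent.Helper19.SJ

open MeasureTheory Set Filter Topology
open Pool.Agent.Helper57.QZ (Pr tor circ aa Zy Wy Sy Vy Ky pt lin Good zA Pz)
open Pool.Agent.Helper57.SI (wsup P1 P2 fej fc gc Kk zz ZZ ww D1 D2 tl)
open Pool.Agent.Helper57.SJ

theorem gb_sup {G : Set ℝ} {a b : ℝ} {f : ℝ → ℝ} (hub : ∀ t ∈ G, f t ≤ b)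
    (hlb : ∃ t ∈ G, a ≤ f t) : a ≤ sSup (f '' G) ∧ sSup (f '' G) ≤ b := by
  obtain ⟨t, ht, hat⟩ := hlb
  have hbd : BddAbove (f '' G) := by
    refine ⟨b, ?_⟩
    rintro _ ⟨s, hs, rfl⟩
    exact hub s hs
  constructor
  · exact hat.trans (le_csSup hbd ⟨t, ht, rfl⟩)
  · refine csSup_le ⟨f t, ⟨t, ht, rfl⟩⟩ ?_
    rintro _ ⟨s, hs, rfl⟩
    exact hub s hs

theorem gb_fin {δ L LT m M : ℝ} (hδ0 : 0 < δ) (hL : 0 < L) (hLT : L ≤ LT)
    (hc : LT - L ≤ δ / 2 * LT) (hM : 0 ≤ M) (h1 : (1 - 10 * (δ / 40)) * M ≤ m)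
    (h2 : m ≤ (1 + 10 * (δ / 40)) * M) (h3 : |m - L| ≤ 10 * (δ / 40) * L) :
    (1 - δ) * M ≤ m ∧ m ≤ (1 + δ) * M ∧ |m - LT| ≤ δ * LT := by
  have hδM : 0 ≤ δ * M := mul_nonneg hδ0.le hM
  have hδL : δ * L ≤ δ * LT := mul_le_mul_of_nonneg_left hLT hδ0.le
  have hδL0 : 0 < δ * L := mul_pos hδ0 hL
  have e1 : (1 - 10 * (δ / 40)) * M = M - δ * M / 4 := by ring
  have e2 : (1 + 10 * (δ / 40)) * M = M + δ * M / 4 := by ring
  have e3 : 10 * (δ / 40) * L = δ * L / 4 := by ring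
  have e4 : δ / 2 * LT = δ * LT / 2 := by ring
  have e5 : (1 - δ) * M = M - δ * M := by ring
  have e6 : (1 + δ) * M = M + δ * M := by ring
  rw [e1] at h1
  rw [e2] at h2
  rw [e3, abs_le] at h3
  rw [e4] at hc
  rw [e5, e6, abs_le]
  obtain ⟨h4, h5⟩ := h3
  refine ⟨by linarith, by linarith, by linarith, by linarith⟩

/-- Row GB. -/
theorem st_GB (h : ST_CMK) : ST_GB := by
  intro δ hδ
  have hδ0 : 0 < δ := hδ.1
  have hd : δ / 40 ∈ Ioo (0:ℝ) 1 := ⟨by linarith [hδ.1], by linarith [hδ.2]⟩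
  obtain ⟨c, hc, H₀, T₀, hH₀, hT₀, h1⟩ := h (δ / 40) hd 1 le_rfl
  have hc0 : 0 < c := hc.1
  have hc1 : c < 1 := hc.2
  have hlc : Real.log c ≤ 0 := Real.log_nonpos hc0.le hc1.le
  have hH₀0 : 0 < H₀ := by linarith
  refine ⟨c, hc, max T₀ (max (H₀ ^ (1 / c)) (Real.exp (Real.exp (2 * (-Real.log c) / δ)))),
    hT₀.trans (le_max_left _ _), fun T hT => ?_⟩
  have hT1 : T₀ ≤ T := (le_max_left _ _).trans hT
  have hT2 : H₀ ^ (1 / c) ≤ T := ((le_max_left _ _).trans (le_max_right _ _)).trans hT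
  have hT3 : Real.exp (Real.exp (2 * (-Real.log c) / δ)) ≤ T :=
    ((le_max_right _ _).trans (le_max_right _ _)).trans hT
  have hT4 : 4 ≤ T := hT₀.trans hT1
  have hT0 : 0 < T := by linarith
  obtain ⟨H, hH⟩ : ∃ H : ℝ, H = T ^ c := ⟨_, rfl⟩
  have hHH : H₀ ≤ H := by
    have e := Real.rpow_le_rpow (Real.rpow_pos_of_pos hH₀0 _).le hT2 hc0.le
    rw [← Real.rpow_mul hH₀0.le, one_div, inv_mul_cancel₀ hc0.ne', Real.rpow_one] at e
    rw [hH]; exact e
  have hH0 : 0 < H := by linarith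
  obtain ⟨hL, A, hA, E, hE1, hE2, h3⟩ := h1 T hT1 H hHH hH.le
  have hvol : T * H ^ (-(1:ℝ)) = T ^ (1 - c) := by
    rw [hH, ← Real.rpow_mul hT0.le, Real.rpow_sub hT0, Real.rpow_one, mul_neg, mul_one,
      Real.rpow_neg hT0.le, div_eq_mul_inv]
  rw [hvol] at hE2
  have hlt : T ^ (1 - c) < T := by
    have := Real.rpow_lt_rpow_of_exponent_lt (show (1:ℝ) < T by linarith)
      (show 1 - c < 1 by linarith)
    rwa [Real.rpow_one] at this
  -- the double logarithms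
  have hlogT : Real.exp (2 * (-Real.log c) / δ) ≤ Real.log T := by
    have := Real.log_le_log (Real.exp_pos _) hT3
    rwa [Real.log_exp] at this
  have hlogT0 : 0 < Real.log T := lt_of_lt_of_le (Real.exp_pos _) hlogT
  have hLT : 2 * (-Real.log c) / δ ≤ Real.log (Real.log T) := by
    have := Real.log_le_log (Real.exp_pos _) hlogT
    rwa [Real.log_exp] at this
  have hLH : Real.log (Real.log H) = Real.log c + Real.log (Real.log T) := by
    rw [hH, Real.log_rpow hT0, Real.log_mul hc0.ne' hlogT0.ne']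
  have hLpos : 0 < Real.log (Real.log H) := by linarith
  have hLle : Real.log (Real.log H) ≤ Real.log (Real.log T) := by linarith
  have hLdiff : Real.log (Real.log T) - Real.log (Real.log H) ≤
      δ / 2 * Real.log (Real.log T) := by
    rw [div_le_iff₀ hδ0] at hLT
    have : δ / 2 * Real.log (Real.log T) = Real.log (Real.log T) * δ / 2 := by ring
    rw [this]
    linarith
  -- the set
  obtain ⟨G, hG⟩ : ∃ G : Set ℝ, G = {t | ∃ u ∈ Icc T (2 * T), u ∉ E ∧ t ∈ Icc u (u + H)} :=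
    ⟨_, rfl⟩
  have hGsub : G ⊆ Icc T (2 * T) := by
    rw [hG]
    rintro t ⟨u, hu, huE, ht⟩
    have := (h3 u hu huE).1
    exact ⟨hu.1.trans ht.1, ht.2.trans this⟩
  have hEfin : volume E ≠ ⊤ :=
    ((measure_mono hE1).trans_lt (by rw [Real.volume_Icc]; exact ENNReal.ofReal_lt_top)).ne
  have hcomp : Icc T (2 * T) \ G ⊆ E := by
    rintro t ⟨ht, htG⟩
    by_contra htE
    apply htG
    rw [hG]
    exact ⟨t, ht, htE, le_rfl, by linarith⟩
  refine ⟨G, hGsub, (measureReal_mono hcomp hEfin).trans hE2, fun θ => ?_⟩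
  have hall : ∀ t ∈ G, riemannZeta (pt 1 t) ≠ 0 ∧ ‖riemannZeta (pt 1 t)‖ ≤ (1 + δ / 40) * A ∧
      ‖deriv riemannZeta (pt 1 t) / riemannZeta (pt 1 t)‖ ≤
        (1 + δ / 40) * Real.log (Real.log H) := by
    rw [hG]
    rintro t ⟨u, hu, huE, ht⟩
    exact (h3 u hu huE).2.1 t ht
  obtain ⟨u, hu, huE⟩ : ∃ u ∈ Icc T (2 * T), u ∉ E := by
    by_contra hcon
    push Not at hcon
    have h4 := measureReal_mono (μ := (volume : Measure ℝ)) (s₁ := Icc T (2 * T)) (s₂ := E)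
      hcon hEfin
    rw [Real.volume_real_Icc] at h4
    have h5 := le_max_left (2 * T - T) 0
    linarith
  have hinG : ∀ t ∈ Icc u (u + H), t ∈ G := by
    intro t ht
    rw [hG]
    exact ⟨u, hu, huE, ht⟩
  obtain ⟨-, -, ⟨t₁, ht₁, hz1, hw1⟩, hθ⟩ := h3 u hu huE
  obtain ⟨t₂, ht₂, hw2⟩ := hθ θ
  have hd0 : 0 < δ / 40 := hd.1
  have hd1 : δ / 40 ≤ 1 / 20 := by linarith [hδ.2]
  have hder : ∀ t ∈ G, ‖deriv riemannZeta (pt 1 t)‖ =
      ‖riemannZeta (pt 1 t)‖ * ‖deriv riemannZeta (pt 1 t) / riemannZeta (pt 1 t)‖ := by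
    intro t ht
    rw [← norm_mul, mul_div_cancel₀ _ (hall t ht).1]
  have s1 := gb_sup (f := fun t => ‖riemannZeta (pt 1 t)‖)
    (fun t ht => (hall t ht).2.1) ⟨t₁, hinG t₁ ht₁, hz1⟩
  have s2 := gb_sup (f := fun t => ‖deriv riemannZeta (pt 1 t)‖) (G := G)
    (a := (1 - δ / 40) * A * ((1 - δ / 40) * Real.log (Real.log H)))
    (b := (1 + δ / 40) * A * ((1 + δ / 40) * Real.log (Real.log H)))
    (fun t ht => by
      show ‖deriv riemannZeta (pt 1 t)‖ ≤ _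
      rw [hder t ht]
      exact mul_le_mul (hall t ht).2.1 (hall t ht).2.2 (norm_nonneg _)
        (mul_nonneg (by linarith) hA.le))
    ⟨t₁, hinG t₁ ht₁, by
      show _ ≤ ‖deriv riemannZeta (pt 1 t₁)‖
      rw [hder t₁ (hinG t₁ ht₁)]
      exact mul_le_mul hz1 hw1 (mul_nonneg (by linarith) hLpos.le) (norm_nonneg _)⟩
  have s3 := gb_sup (f := fun t => (Complex.exp (-((θ : ℂ) * Complex.I)) *
      (deriv riemannZeta (pt 1 t) / riemannZeta (pt 1 t))).re) (G := G)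
    (a := (1 - δ / 40) * Real.log (Real.log H))
    (b := (1 + δ / 40) * Real.log (Real.log H))
    (fun t ht => by
      refine (Complex.re_le_norm _).trans ?_
      rw [norm_mul, show -((θ : ℂ) * Complex.I) = ((-θ : ℝ) : ℂ) * Complex.I by push_cast; ring,
        Complex.norm_exp_ofReal_mul_I, one_mul]
      exact (hall t ht).2.2)
    ⟨t₂, hinG t₂ ht₂, hw2⟩
  have h4 := Pool.Agent.Helper57.SI.si57_alg hd0 hd1 hA hLpos s1.1 s1.2 s2.1 s2.2 s3.1 s3.2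
  have hM : 0 ≤ sSup ((fun t : ℝ => ‖deriv riemannZeta (pt 1 t)‖) '' G) /
      sSup ((fun t : ℝ => ‖riemannZeta (pt 1 t)‖) '' G) := by
    refine div_nonneg (le_trans ?_ s2.1) (le_trans ?_ s1.1)
    · exact mul_nonneg (mul_nonneg (by linarith) hA.le) (mul_nonneg (by linarith) hLpos.le)
    · exact mul_nonneg (by linarith) hA.le
  exact gb_fin hδ0 hLpos hLle hLdiff hM h4.1 h4.2.1 h4.2.2

end Pool.Agent.Helper19.SJ
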